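import Mathlib
import Pool.Agent.Helper55.SuperCong

namespace Pool.Agent.Results.MP_7fc841_nt.Supercongruence

/-- `S N = ∑_{0 ≤ k ≤ N} (2Nk - 1) ((-1/N)_k / k!)^(2N)`, so that `S_r(p) = S (p^r - 1)`.
Here `(a)_k = a(a+1)⋯(a+k-1)` is Mathlib's `(ascPochhammer ℚ k).eval a`. -/
noncomputable def S (N : ℕ) : ℚ :=
  ∑ k ∈ Finset.range (N + 1), (2 * (N : ℚ) * k - 1) *
    ((ascPochhammer ℚ k).eval (-1 / (N : ℚ)) / (k.factorial : ℚ)) ^ (2 * N)

/-- For every prime `p > 3` and every `r ≥ 1` one has `S_r(p) ≡ 0 (mod p^(2r+3))`: the rational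
number `S_r(p) / p^(2r+3)` has denominator prime to `p`. -/
theorem result (p : ℕ) (hp : p.Prime) (hp3 : 3 < p) (r : ℕ) (hr : 1 ≤ r) :
    ¬ p ∣ (S (p ^ r - 1) / (p : ℚ) ^ (2 * r + 3)).den := by
  have h := Pool.Agent.Helper55.SuperCong.main p hp hp3 r hr
  have h1 : 1 ≤ p ^ r := Nat.one_le_pow _ _ hp.pos
  have h2 : S (p ^ r - 1) = ∑ k ∈ Finset.range (p ^ r), (2 * ((p : ℚ) ^ r - 1) * k - 1) *
      ((ascPochhammer ℚ k).eval (-1 / ((p : ℚ) ^ r - 1)) / (k.factorial : ℚ)) ^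
        (2 * (p ^ r - 1)) := by
    unfold S
    rw [Nat.sub_add_cancel h1, Nat.cast_sub h1]
    push_cast
    rfl
  rw [h2]
  exact h

end Pool.Agent.Results.MP_7fc841_nt.Supercongruence
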